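import Pool.Agent.H77.TF.Stm

set_option autoImplicit false

open MvPolynomial Module

namespace Pool.Agent.H58.TF

open Pool.Agent.H77.TF

/-- the value of the Frobenius field at a linear form -/
theorem evl_frob (K : Type) [Field K] [Fintype K] (l k : ℕ) (a : Fin l → K) :
    evl a (frob K l k) = lin a ^ (Fintype.card K ^ k) := by
  obtain ⟨p, hp⟩ := CharP.exists K
  obtain ⟨r, hpr, hcard⟩ := FiniteField.card K p
  have : Fact p.Prime := ⟨hpr⟩
  have hq : Fintype.card K ^ k = p ^ ((r : ℕ) * k) := by rw [hcard, pow_mul]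
  unfold lin evl frob
  rw [hq, sum_pow_char_pow]
  refine Finset.sum_congr rfl fun i _ => ?_
  rw [mul_pow, ← C_pow, ← hq]
  congr 2
  exact (FiniteField.pow_card_pow k (a i)).symm

theorem ful (h1 : S_SAI) (h2 : S_MDT) : S_FUL := by
  classical
  intro K _ _ l v hv
  have : Finite (Projectivization K (Fin l → K)) := inferInstance
  have : Fintype (Projectivization K (Fin l → K)) := Fintype.ofFinite _
  obtain ⟨c, hc, hdet⟩ := h2 K l
  set A : Projectivization K (Fin l → K) → Fin l → K := fun p => p.rep with hA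
  have hS : Simple A := by
    refine ⟨fun p => p.rep_nonzero, fun p p' hpp' t ht => hpp' ?_⟩
    have ht0 : t ≠ 0 := by
      rintro rfl
      rw [zero_smul] at ht
      exact p.rep_nonzero ht
    rw [← p.mk_rep, ← p'.mk_rep, Projectivization.mk_eq_mk_iff']
    exact ⟨t, ht.symm⟩
  rw [finprod_eq_prod_of_fintype] at hdet
  have hmem : ∀ k : Fin l, frob K l k ∈ LD A := by
    intro k p
    show lin (A p) ∣ evl (A p) (frob K l k)
    rw [evl_frob]
    exact dvd_pow_self _ (pow_ne_zero _ Fintype.card_ne_zero)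
  obtain ⟨b, hb⟩ := h1 K l _ A hS (fun k => frob K l k) c hc hmem hdet
  have hvm : v ∈ LD A := fun p => hv _ p.rep_nonzero
  refine ⟨fun k => b.repr ⟨v, hvm⟩ k, ?_⟩
  have h3 := congrArg (Subtype.val) (b.sum_repr ⟨v, hvm⟩)
  calc v = _ := h3.symm
    _ = ∑ k, b.repr ⟨v, hvm⟩ k • frob K l k := by
      simp only [Submodule.coe_sum, Submodule.coe_smul, hb]

end Pool.Agent.H58.TF

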